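import Pool.Agent.helper51.RMX.Spec

/-!
# Project rmx (MP_24e2e7_nt), row rmx:UNX (the inertia group of an unramified prime is trivial)
-/

set_option autoImplicit false

namespace Pool.Agent.RMX

open Pool.Agent.RB NumberField IsDedekindDomain Module
open scoped nonZeroDivisors Real Classical IsMulCommutative

theorem UNX : UNX_stmt := by
  intro F H _ _ _ _ _ _ P hun σ hσ
  have hlies : P.asIdeal.LiesOver (P.under (𝓞 F)).asIdeal := ⟨rfl⟩
  have hmax : (P.under (𝓞 F)).asIdeal.IsMaximal := (P.under (𝓞 F)).isMaximal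
  have hmax' : P.asIdeal.IsMaximal := P.isMaximal
  have hcard : Nat.card (P.asIdeal.inertia (H ≃ₐ[F] H)) =
      (P.under (𝓞 F)).asIdeal.ramificationIdxIn (𝓞 H) :=
    Ideal.card_inertia_eq_ramificationIdxIn (P.under (𝓞 F)).asIdeal P.asIdeal
  rw [Ideal.ramificationIdxIn_eq_ramificationIdx (P.under (𝓞 F)).asIdeal P.asIdeal (H ≃ₐ[F] H),
    Ideal.ramificationIdx_eq_one P.asIdeal (𝓞 F)] at hcard
  have hbot : P.asIdeal.inertia (H ≃ₐ[F] H) = ⊥ := Subgroup.card_eq_one.1 hcard
  have hmem : σ ∈ P.asIdeal.inertia (H ≃ₐ[F] H) := by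
    intro x
    have h1 := hσ x
    have h2 : σ (x : H) - (x : H) = ((σ • x - x : 𝓞 H) : H) := rfl
    rw [h2] at h1
    exact (HeightOneSpectrum.valuation_lt_one_iff_mem P _).1 h1
  rw [hbot, Subgroup.mem_bot] at hmem
  exact hmem

end Pool.Agent.RMX
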